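import Mathlib

/-! The enveloping group of a product of two connected quandles. -/

open Quandles Rack
open scoped commutatorElement

namespace Pool.Agent.P.MP_cc10d1_gt.S

section one
variable {C : Type} [Quandle C]

/-- The generator of the enveloping group. -/
def gen (a : C) : EnvelGroup C := toEnvelGroup C a

/-- The inner group. -/
def inn (C : Type) [Quandle C] : Subgroup (Equiv.Perm C) :=
  Subgroup.closure (Set.range fun a : C => (act' a : Equiv.Perm C))

/-- The inner group is transitive. -/
def Conn (C : Type) [Quandle C] : Prop := ∀ a b : C, ∃ g ∈ inn C, g a = b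

/-- The homomorphism out of the enveloping group given by a conjugation compatible map. -/
def lift {G : Type} [Group G] (f : C → G) (hf : ∀ a b, f (a ◃ b) = f a * f b * (f a)⁻¹) :
    EnvelGroup C →* G :=
  toEnvelGroup.map (G := G) ⟨f, fun {a b} => hf a b⟩

theorem lift_gen {G : Type} [Group G] (f : C → G) (hf : ∀ a b, f (a ◃ b) = f a * f b * (f a)⁻¹)
    (a : C) : lift f hf (gen a) = f a := rfl

theorem gen_act (a b : C) : gen (a ◃ b) = gen a * gen b * (gen a)⁻¹ :=
  (toEnvelGroup C).map_act

theorem env_ind {p : EnvelGroup C → Prop} (h1 : p 1) (hg : ∀ a, p (gen a))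
    (hm : ∀ u v, p u → p v → p (u * v)) (hi : ∀ u, p u → p u⁻¹) (u : EnvelGroup C) : p u := by
  refine Quotient.inductionOn u fun x => ?_
  induction x with
  | unit => exact h1
  | incl a => exact hg a
  | mul x y a b => exact hm _ _ a b
  | inv x a => exact hi _ a

/-- The action of the enveloping group. -/
def ea : EnvelGroup C →* Equiv.Perm C := envelAction

theorem ea_gen (a : C) : ea (gen a) = (act' a : Equiv.Perm C) := rfl

/-- The degree. -/
def deg : EnvelGroup C →* Multiplicative ℤ :=
  lift (fun _ => Multiplicative.ofAdd 1) fun _ _ => by simp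

theorem deg_gen (a : C) : deg (gen a) = Multiplicative.ofAdd 1 := rfl

theorem conj_gen (u : EnvelGroup C) : ∀ a : C, u * gen a * u⁻¹ = gen (ea u a) := by
  induction u using env_ind with
  | h1 => simp
  | hg b => exact fun a => (gen_act b a).symm
  | hm u v hu hv =>
    intro a
    rw [map_mul, Equiv.Perm.mul_apply, ← hu, ← hv]; group
  | hi u hu =>
    intro a
    have := hu (ea u⁻¹ a)
    rw [← Equiv.Perm.mul_apply, ← map_mul, mul_inv_cancel, map_one, Equiv.Perm.one_apply] at this
    rw [← this]; group

theorem range_ea : (ea : EnvelGroup C →* Equiv.Perm C).range = inn C := by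
  apply le_antisymm
  · rintro _ ⟨u, rfl⟩
    induction u using env_ind with
    | h1 => rw [map_one]; exact one_mem _
    | hg b => exact Subgroup.subset_closure ⟨b, rfl⟩
    | hm u v hu hv => rw [map_mul]; exact mul_mem hu hv
    | hi u hu => rw [map_inv]; exact inv_mem hu
  · rw [inn, Subgroup.closure_le]
    rintro _ ⟨a, rfl⟩
    exact ⟨gen a, rfl⟩

theorem central_of_ea {u : EnvelGroup C} (h : ea u = 1) (v : EnvelGroup C) : Commute u v := by
  induction v using env_ind with
  | h1 => exact Commute.one_right u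
  | hg b =>
    have := conj_gen u b
    rw [h, Equiv.Perm.one_apply, mul_inv_eq_iff_eq_mul] at this
    exact this
  | hm v w hv hw => exact hv.mul_right hw
  | hi v hv => exact hv.inv_right

theorem exists_conj (h : Conn C) (a b : C) : ∃ u : EnvelGroup C, deg u = 1 ∧ ea u a = b := by
  obtain ⟨g, hg, rfl⟩ := h a b
  rw [← range_ea] at hg
  obtain ⟨u, rfl⟩ := hg
  refine ⟨u * gen a ^ (-(deg u).toAdd), ?_, ?_⟩
  · rw [map_mul, map_zpow, deg_gen, ← ofAdd_zsmul]
    simp
  · rw [map_mul, map_zpow, Equiv.Perm.mul_apply]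
    congr 1
    exact Equiv.Perm.zpow_apply_eq_self_of_apply_eq_self (Quandle.fix (x := a)) _

theorem mem_commutator (h : Conn C) (x : C) (u : EnvelGroup C) :
    Abelianization.of u = Abelianization.of (gen x) ^ (deg u).toAdd := by
  induction u using env_ind with
  | h1 => simp
  | hg b =>
    obtain ⟨w, -, rfl⟩ := exists_conj h x b
    rw [deg_gen, ← conj_gen]
    simp
  | hm u v hu hv => rw [map_mul, map_mul, hu, hv, toAdd_mul, zpow_add]
  | hi u hu => rw [map_inv, map_inv, hu, toAdd_inv, zpow_neg]

theorem ker_deg (h : Conn C) (x : C) {u : EnvelGroup C} (hu : deg u = 1) :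
    u ∈ commutator (EnvelGroup C) := by
  have := mem_commutator h x u
  rw [hu] at this
  simpa [← MonoidHom.mem_ker] using this

theorem deg_commutator {u : EnvelGroup C} (hu : u ∈ commutator (EnvelGroup C)) : deg u = 1 :=
  Abelianization.commutator_subset_ker deg hu

/-- The derived subgroup of the enveloping group is perfect if that of the inner group is. -/
theorem env_perfect (h : Conn C) (x : C)
    (hp : ⁅inn C, inn C⁆ ≤ ⁅⁅inn C, inn C⁆, ⁅inn C, inn C⁆⁆) :
    commutator (EnvelGroup C) ≤ ⁅commutator (EnvelGroup C), commutator (EnvelGroup C)⁆ := by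
  set N := commutator (EnvelGroup C) with hN
  have hm : N.map ea = ⁅inn C, inn C⁆ := by
    rw [hN, commutator, Subgroup.map_commutator, ← MonoidHom.range_eq_map, range_ea]
  have key : ∀ u : EnvelGroup C, ∃ (i : ℤ) (z : EnvelGroup C), ea z = 1 ∧
      QuotientGroup.mk' ⁅N, N⁆ u =
        QuotientGroup.mk' ⁅N, N⁆ z * QuotientGroup.mk' ⁅N, N⁆ (gen x) ^ i := by
    intro u
    have h1 : u * gen x ^ (-(deg u).toAdd) ∈ N := ker_deg h x (by
      rw [map_mul, map_zpow, deg_gen, ← ofAdd_zsmul]; simp)
    have h2 : ea (u * gen x ^ (-(deg u).toAdd)) ∈ (⁅N, N⁆ : Subgroup _).map ea := by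
      rw [Subgroup.map_commutator, hm]
      exact hp (hm ▸ Subgroup.mem_map_of_mem _ h1)
    obtain ⟨n, hn, he⟩ := h2
    refine ⟨(deg u).toAdd, n⁻¹ * (u * gen x ^ (-(deg u).toAdd)), by
      rw [map_mul, map_inv, he, inv_mul_cancel], ?_⟩
    have : QuotientGroup.mk' ⁅N, N⁆ n = 1 := (QuotientGroup.eq_one_iff n).2 hn
    rw [map_mul, map_inv, this, map_mul, map_zpow]
    simp
  rw [hN, commutator, Subgroup.commutator_le]
  intro u _ v _
  rw [← QuotientGroup.eq_one_iff]
  change QuotientGroup.mk' ⁅N, N⁆ ⁅u, v⁆ = 1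
  rw [map_commutatorElement, commutatorElement_eq_one_iff_commute]
  obtain ⟨i, z, hz, hu⟩ := key u
  obtain ⟨j, w, hw, hv⟩ := key v
  have a := (central_of_ea hz v).map (QuotientGroup.mk' ⁅N, N⁆)
  have b := ((central_of_ea hw (gen x)).map (QuotientGroup.mk' ⁅N, N⁆)).symm
  rw [hu]
  refine a.mul_left ?_
  rw [hv]
  exact (b.zpow_left i).mul_right (Commute.zpow_zpow_self _ i j)

end one

section two
variable {C D E : Type} [Quandle C] [Quandle D] [Group E] (e : C → D → E)
  (he : ∀ a b a' b', e (a ◃ a') (b ◃ b') = e a b * e a' b' * (e a b)⁻¹)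

/-- The map induced by the inclusion of the first factor. -/
def inl (y : D) : EnvelGroup C →* E :=
  lift (fun a => e a y) fun a a' => by rw [← he, Quandle.fix]

theorem inl_gen (y : D) (a : C) : inl e he y (gen a) = e a y := rfl

theorem inl_conj (y : D) (u : EnvelGroup C) : ∀ (a : C) (b : D),
    inl e he y u * e a b * (inl e he y u)⁻¹ =
      e (ea u a) (((act' y : Equiv.Perm D) ^ (deg u).toAdd) b) := by
  induction u using env_ind with
  | h1 => simp
  | hg c => intro a b; rw [inl_gen, ← he, deg_gen, toAdd_ofAdd, zpow_one]; rfl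
  | hm u v hu hv =>
    intro a b
    rw [map_mul, map_mul, map_mul, toAdd_mul, zpow_add, Equiv.Perm.mul_apply,
      Equiv.Perm.mul_apply, ← hu, ← hv]
    group
  | hi u hu =>
    intro a b
    have := hu (ea u⁻¹ a) (((act' y : Equiv.Perm D) ^ (deg u⁻¹).toAdd) b)
    rw [← Equiv.Perm.mul_apply, ← map_mul, mul_inv_cancel, map_one, Equiv.Perm.one_apply,
      ← Equiv.Perm.mul_apply, ← zpow_add, ← toAdd_mul, ← map_mul, mul_inv_cancel, map_one,
      toAdd_one, zpow_zero, Equiv.Perm.one_apply] at this
    rw [← this, map_inv]; group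

theorem inl_conj' (y : D) {u : EnvelGroup C} (hu : deg u = 1) (a : C) (b : D) :
    inl e he y u * e a b * (inl e he y u)⁻¹ = e (ea u a) b := by
  rw [inl_conj, hu]; simp

/-- The map induced by the inclusion of the second factor. -/
def inr (x : C) : EnvelGroup D →* E :=
  inl (fun b a => e a b) (fun a b a' b' => he b a b' a') x

theorem inr_gen (x : C) (b : D) : inr e he x (gen b) = e x b := rfl

theorem inr_conj' (x : C) {v : EnvelGroup D} (hv : deg v = 1) (a : C) (b : D) :
    inr e he x v * e a b * (inr e he x v)⁻¹ = e a (ea v b) :=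
  inl_conj' (fun b a => e a b) _ x hv b a

theorem comm_central (x : C) (y : D) {u : EnvelGroup C} (hu : deg u = 1) {v : EnvelGroup D}
    (hv : deg v = 1) (a : C) (b : D) : Commute ⁅inl e he y u, inr e he x v⁆ (e a b) := by
  have hu' : deg u⁻¹ = 1 := by rw [map_inv, hu, inv_one]
  have hv' : deg v⁻¹ = 1 := by rw [map_inv, hv, inv_one]
  have h1 := inr_conj' e he x hv' a b
  have h2 := inl_conj' e he y hu' a (ea v⁻¹ b)
  have h3 := inr_conj' e he x hv (ea u⁻¹ a) (ea v⁻¹ b)
  have h4 := inl_conj' e he y hu (ea u⁻¹ a) b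
  have h5 : ea v (ea v⁻¹ b) = b := by
    rw [← Equiv.Perm.mul_apply, ← map_mul, mul_inv_cancel, map_one, Equiv.Perm.one_apply]
  have h6 : ea u (ea u⁻¹ a) = a := by
    rw [← Equiv.Perm.mul_apply, ← map_mul, mul_inv_cancel, map_one, Equiv.Perm.one_apply]
  rw [h5, ← h2, ← h1] at h3
  rw [h6, ← h3, map_inv, map_inv] at h4
  rw [commute_iff_eq, ← mul_inv_eq_iff_eq_mul, commutatorElement_def]
  refine Eq.trans ?_ h4
  group

theorem inl_inr_commute (hC : Conn C)
    (hp : ⁅inn C, inn C⁆ ≤ ⁅⁅inn C, inn C⁆, ⁅inn C, inn C⁆⁆) (x : C) (y : D)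
    {u : EnvelGroup C} (hu : deg u = 1) {v : EnvelGroup D} (hv : deg v = 1) :
    Commute (inl e he y u) (inr e he x v) := by
  have hc : ∀ w ∈ commutator (EnvelGroup C), ∀ t : EnvelGroup C,
      Commute ⁅inl e he y w, inr e he x v⁆ (inl e he y t) := by
    intro w hw t
    induction t using env_ind with
    | h1 => rw [map_one]; exact Commute.one_right _
    | hg b => exact comm_central e he x y (deg_commutator hw) hv b y
    | hm s t hs ht => rw [map_mul]; exact hs.mul_right ht
    | hi s hs => rw [map_inv]; exact hs.inv_right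
  have h1 := env_perfect hC x hp (ker_deg hC x hu)
  have h2 : ⁅commutator (EnvelGroup C), commutator (EnvelGroup C)⁆ ≤
      (Subgroup.centralizer {inr e he x v}).comap (inl e he y) := by
    rw [Subgroup.commutator_le]
    intro s hs t ht
    rw [Subgroup.mem_comap, Subgroup.mem_centralizer_singleton_iff, map_commutatorElement]
    set V := inr e he x v
    have a := hc s hs
    have b := hc t ht
    set S := inl e he y s with hS
    set T := inl e he y t with hT
    have a1 : Commute ⁅S, V⁆ S := a s
    have a2 : Commute ⁅S, V⁆ T := a t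
    have b1 : Commute ⁅T, V⁆ S := b s
    have b2 : Commute ⁅T, V⁆ T := b t
    have e1 : V * S * V⁻¹ = ⁅S, V⁆⁻¹ * S := by rw [commutatorElement_def]; group
    have e2 : V * T * V⁻¹ = ⁅T, V⁆⁻¹ * T := by rw [commutatorElement_def]; group
    have ab : Commute ⁅S, V⁆ ⁅T, V⁆ := by
      have : Commute ⁅S, V⁆ V := by
        have h3 : ∀ r : EnvelGroup D, Commute ⁅S, V⁆ (inr e he x r) := by
          intro r
          induction r using env_ind with
          | h1 => rw [map_one]; exact Commute.one_right _
          | hg b => exact comm_central e he x y (deg_commutator hs) hv x b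
          | hm s t hs ht => rw [map_mul]; exact hs.mul_right ht
          | hi s hs => rw [map_inv]; exact hs.inv_right
        exact h3 v
      rw [commutatorElement_def T V]
      exact ((a2.mul_right this).mul_right a2.inv_right).mul_right this.inv_right
    have e3 : V * ⁅S, T⁆ * V⁻¹ = ⁅V * S * V⁻¹, V * T * V⁻¹⁆ := by
      simp only [commutatorElement_def]; group
    rw [e1, e2] at e3
    generalize ⁅S, V⁆ = p at *
    generalize ⁅T, V⁆ = q at *
    have e4 : ⁅p⁻¹ * S, q⁻¹ * T⁆ = ⁅S, T⁆ := by
      have c1 : Commute p⁻¹ (q⁻¹ * T) := ab.inv_inv.mul_right a2.inv_left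
      have c2 : Commute q⁻¹ S := b1.inv_left
      calc ⁅p⁻¹ * S, q⁻¹ * T⁆ = p⁻¹ * (S * (q⁻¹ * T) * S⁻¹) * p * (q⁻¹ * T)⁻¹ := by
            rw [commutatorElement_def]; group
        _ = (S * (q⁻¹ * T) * S⁻¹) * (q⁻¹ * T)⁻¹ := by
            rw [((a1.inv_left.mul_right c1).mul_right a1.inv_inv).eq]; group
        _ = q⁻¹ * (S * T * S⁻¹ * T⁻¹) * q := by rw [← mul_assoc S, ← c2.eq]; group
        _ = ⁅S, T⁆ := by
            rw [(((c2.mul_right b2.inv_left).mul_right b1.inv_inv).mul_right b2.inv_inv).eq,
              commutatorElement_def]; group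
    rw [e4, mul_inv_eq_iff_eq_mul] at e3
    exact e3.symm
  have := h2 h1
  rw [Subgroup.mem_comap, Subgroup.mem_centralizer_singleton_iff] at this
  exact this

theorem prod_formula (hC : Conn C) (hD : Conn D)
    (hp : ⁅inn C, inn C⁆ ≤ ⁅⁅inn C, inn C⁆, ⁅inn C, inn C⁆⁆) (x : C) (y : D) (l : List (C × D)) :
    (l.map fun c => e c.1 c.2).prod = inl e he y (l.map fun c => gen c.1).prod *
      (e x y ^ l.length)⁻¹ * inr e he x (l.map fun c => gen c.2).prod := by
  have hd : ∀ l : List (C × D), deg (l.map fun c => gen c.1).prod =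
      Multiplicative.ofAdd (l.length : ℤ) := by
    intro l
    induction l with
    | nil => simp
    | cons c l ih => simp [ih, deg_gen, ← ofAdd_add, add_comm]
  induction l with
  | nil => simp
  | cons c l ih =>
    obtain ⟨a, b⟩ := c
    have h1 : e a b = e a y * (e x y)⁻¹ * e x b := by
      obtain ⟨u, hu, rfl⟩ := exists_conj hC x a
      obtain ⟨v, hv, rfl⟩ := exists_conj hD y b
      have c1 := inl_inr_commute e he hC hp x y hu hv
      have c2 := inl_inr_commute e he hC hp x y (u := gen x * u⁻¹ * (gen x)⁻¹)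
        (by simp [hu]) hv
      rw [map_mul, map_mul, map_inv, map_inv, inl_gen] at c2
      rw [← inl_conj' e he y hu x (ea v y), ← inl_conj' e he y hu x y, ← inr_conj' e he x hv x y]
      generalize inl e he y u = U at *
      generalize inr e he x v = V at *
      generalize e x y = g at *
      calc U * (V * g * V⁻¹) * U⁻¹ = U * V * g * (V⁻¹ * U⁻¹) := by group
        _ = U * (V * (g * U⁻¹ * g⁻¹)) * g * V⁻¹ := by rw [← c1.inv_inv.eq]; group
        _ = _ := by rw [← c2.eq]; group
    have c3 := inl_inr_commute e he hC hp x y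
      (u := (l.map fun c => gen c.1).prod * (gen x ^ l.length)⁻¹)
      (by rw [map_mul, map_inv, map_pow, hd, deg_gen, ← ofAdd_nsmul]; simp)
      (v := (gen y)⁻¹ * gen b) (by simp [deg_gen])
    rw [map_mul, map_mul, map_inv, map_inv, map_pow, inl_gen, inr_gen, inr_gen] at c3
    simp only [List.map_cons, List.prod_cons, List.length_cons, map_mul, inl_gen, inr_gen]
    rw [ih, h1, pow_succ']
    generalize inl e he y (l.map fun c => gen c.1).prod = U at *
    generalize inr e he x (l.map fun c => gen c.2).prod = V at *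
    generalize e x y ^ l.length = G at *
    calc e a y * (e x y)⁻¹ * e x b * (U * G⁻¹ * V)
        = e a y * (((e x y)⁻¹ * e x b) * (U * G⁻¹)) * V := by group
      _ = _ := by rw [← c3.eq]; group

include he in
/-- Two words in a product of connected quandles, the first one with perfect derived inner group,
have the same product in every conjugation compatible group as soon as their projections have the
same products in the enveloping groups. -/
theorem prod_env (hC : Conn C) (hD : Conn D)
    (hp : ⁅inn C, inn C⁆ ≤ ⁅⁅inn C, inn C⁆, ⁅inn C, inn C⁆⁆) (l l' : List (C × D))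
    (hl : l.length = l'.length)
    (h1 : (l.map fun c => gen c.1).prod = (l'.map fun c => gen c.1).prod)
    (h2 : (l.map fun c => gen c.2).prod = (l'.map fun c => gen c.2).prod) :
    (l.map fun c => e c.1 c.2).prod = (l'.map fun c => e c.1 c.2).prod := by
  cases l with
  | nil => rw [List.length_eq_zero_iff.1 hl.symm]
  | cons c l =>
    rw [prod_formula e he hC hD hp c.1 c.2, prod_formula e he hC hD hp c.1 c.2 l', hl, h1, h2]

end two

end Pool.Agent.P.MP_cc10d1_gt.S
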