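import Pool.Agent.P.MP_cc10d1_gt.S.Sieve

/-! The sieve on a coset of a group acting on a finite set. -/

namespace Pool.Agent.P.MP_cc10d1_gt.S

open Finset MulAction

section
variable {B Y ι : Type} [Group B] [MulAction B Y]

/-- The restriction of a family of points to a finite index set. -/
def res (y : ι → Y) (T : Finset ι) : T → Y := fun c => y c

theorem mem_stab_res (y : ι → Y) (T : Finset ι) (b : B) :
    b ∈ stabilizer B (res y T) ↔ ∀ c ∈ T, b • y c = y c := by
  rw [mem_stabilizer_iff, funext_iff]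
  exact ⟨fun h c hc => h ⟨c, hc⟩, fun h c => h c.1 c.2⟩

theorem index_insert [DecidableEq ι] (y : ι → Y) (T : Finset ι) (c : ι) :
    (stabilizer B (res y (insert c T))).index =
      (orbit (stabilizer B (res y T)) (y c)).ncard * (stabilizer B (res y T)).index := by
  have h : stabilizer B (res y (insert c T)) = stabilizer B (y c) ⊓ stabilizer B (res y T) := by
    ext b
    rw [Subgroup.mem_inf, mem_stab_res, mem_stab_res, mem_stabilizer_iff, forall_mem_insert]
  rw [h, ← Subgroup.relIndex_mul_index (inf_le_right (a := stabilizer B (y c))),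
    Subgroup.inf_relIndex_right, ← index_stabilizer]
  congr 1

theorem index_bounds [Finite Y] [DecidableEq ι] (y : ι → Y) (K : Finset ι) (J : ℕ) (ε : ℝ)
    (hε : ε ≤ 1)
    (h : ∀ T ⊆ K, T.card ≤ J → ∀ c ∈ K, c ∉ T →
      (1 - ε) * (orbit B (y c)).ncard ≤ (orbit (stabilizer B (res y T)) (y c)).ncard)
    (T : Finset ι) (hT : T ⊆ K) (hJ : T.card ≤ J) :
    (1 - ε) ^ T.card * ∏ c ∈ T, ((orbit B (y c)).ncard : ℝ) ≤ (stabilizer B (res y T)).index ∧
      ((stabilizer B (res y T)).index : ℝ) ≤ ∏ c ∈ T, ((orbit B (y c)).ncard : ℝ) := by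
  induction T using Finset.induction_on with
  | empty =>
    have : stabilizer B (res y ∅) = ⊤ := by
      rw [eq_top_iff]; intro b _; rw [mem_stab_res]; simp
    simp [this]
  | insert c T hc ih =>
    have hT' : T ⊆ K := (subset_insert c T).trans hT
    rw [card_insert_of_notMem hc] at hJ ⊢
    obtain ⟨a, b⟩ := ih hT' (by omega)
    have h1 := h T hT' (by omega) c (hT (mem_insert_self c T)) hc
    have h2 : ((orbit (stabilizer B (res y T)) (y c)).ncard : ℝ) ≤ (orbit B (y c)).ncard := by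
      exact_mod_cast Set.ncard_le_ncard (orbit_subgroup_subset _ _) (Set.toFinite _)
    rw [index_insert, prod_insert hc, Nat.cast_mul, pow_succ]
    have hp : (0 : ℝ) ≤ ∏ c ∈ T, ((orbit B (y c)).ncard : ℝ) :=
      prod_nonneg fun _ _ => Nat.cast_nonneg _
    have h3 : (0 : ℝ) ≤ (1 - ε) ^ T.card * ∏ c ∈ T, ((orbit B (y c)).ncard : ℝ) :=
      mul_nonneg (pow_nonneg (by linarith) _) hp
    constructor
    · calc _ = ((1 - ε) * (orbit B (y c)).ncard) *
            ((1 - ε) ^ T.card * ∏ c ∈ T, ((orbit B (y c)).ncard : ℝ)) := by ring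
        _ ≤ _ := mul_le_mul h1 a h3 (Nat.cast_nonneg _)
    · exact mul_le_mul h2 b (Nat.cast_nonneg _) (Nat.cast_nonneg _)

theorem count_coset [Finite Y] (D : Subgroup B) (g0 : B) (y : ι → Y) (T : Finset ι)
    (h : ∀ b : B, ∃ d ∈ D, ∀ c ∈ T, d • y c = b • y c) :
    Nat.card {w : D.map (toPermHom B Y) // ∀ c ∈ T, g0 • (w.1 (y c)) = y c} *
      (stabilizer B (res y T)).index = Nat.card (D.map (toPermHom B Y)) := by
  set H := D.map (toPermHom B Y) with hH
  have ho : orbit H (res y T) = orbit B (res y T) := by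
    ext z
    constructor
    · rintro ⟨⟨w, d, _, rfl⟩, rfl⟩
      exact ⟨d, rfl⟩
    · rintro ⟨b, rfl⟩
      obtain ⟨d, hd, he⟩ := h b
      exact ⟨⟨toPermHom B Y d, d, hd, rfl⟩, funext fun c => he c.1 c.2⟩
  rw [index_stabilizer, ← ho, ← index_stabilizer, mul_comm,
    ← Subgroup.index_mul_card (stabilizer H (res y T))]
  congr 1
  obtain ⟨d, hd, he⟩ := h g0⁻¹
  let w0 : H := ⟨toPermHom B Y d, d, hd, rfl⟩
  have hw0 : ∀ c ∈ T, w0 • y c = g0⁻¹ • y c := he
  refine Nat.card_congr ((Equiv.mulLeft w0⁻¹).subtypeEquiv fun w => ?_)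
  rw [mem_stab_res]
  refine forall₂_congr fun c hc => ?_
  rw [Equiv.coe_mulLeft, mul_smul, inv_smul_eq_iff, hw0 c hc, eq_inv_smul_iff]
  rfl

end

/-- If a subgroup `D` is transitive on all joint orbits of boundedly many of the points `y c`, the
orbits are almost independent and long, and the sum of the inverse lengths is bounded, then every
coset of `D` has an element that moves all the points. -/
theorem group_sieve (L : ℝ) : ∃ J : ℕ, ∀ m : ℕ, ∃ M : ℕ,
    ∀ {B Y ι : Type} [Group B] [MulAction B Y] [Finite Y] [DecidableEq ι] (D : Subgroup B) (g0 : B)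
      (K : Finset ι) (y : ι → Y), (∀ c ∈ K, M ≤ (orbit B (y c)).ncard) →
      ∑ c ∈ K, 1 / ((orbit B (y c)).ncard : ℝ) ≤ L →
      (∀ T ⊆ K, T.card ≤ J → ∀ b : B, ∃ d ∈ D, ∀ c ∈ T, d • y c = b • y c) →
      (∀ T ⊆ K, T.card ≤ J → ∀ c ∈ K, c ∉ T → ∃ bad : Set Y, bad.ncard ≤ m ∧
        ∀ z ∈ orbit B (y c), z ∉ bad → ∃ b : B, (∀ i ∈ T, b • y i = y i) ∧ b • y c = z) →
      ∃ d ∈ D, ∀ c ∈ K, (g0 * d) • y c ≠ y c := by
  obtain ⟨J, η, hη, hs⟩ := sieve L
  refine ⟨J, fun m => ?_⟩
  set ε : ℝ := η / (1 + η) / (J + 1) with hε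
  have hε0 : 0 < ε := by positivity
  have hJε : (J + 1) * ε = η / (1 + η) := by rw [hε]; field_simp
  have hη1 : η / (1 + η) ≤ 1 := by rw [div_le_one (by linarith)]; linarith
  have hJ0 : (0 : ℝ) ≤ J := Nat.cast_nonneg J
  have hε1 : ε ≤ 1 := by nlinarith
  obtain ⟨M, hM⟩ := exists_nat_ge ((m : ℝ) / ε)
  refine ⟨M + 2, ?_⟩
  intro B Y ι _ _ _ _ D g0 K y hy hL hD hI
  classical
  have := Fintype.ofFinite (D.map (toPermHom B Y))
  have hy' : ∀ c ∈ K, (M : ℝ) + 2 ≤ (orbit B (y c)).ncard := fun c hc => by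
    exact_mod_cast hy c hc
  have hM0 : (0 : ℝ) ≤ M := Nat.cast_nonneg M
  have hb := index_bounds (B := B) y K J ε hε1 (fun T hT hJ c hc hcT => by
    obtain ⟨bad, hbad, hz⟩ := hI T hT hJ c hc hcT
    have h1 : orbit B (y c) ⊆ orbit (stabilizer B (res y T)) (y c) ∪ bad := by
      intro z hz'
      by_cases hb : z ∈ bad
      · exact Or.inr hb
      · obtain ⟨b, h2, h3⟩ := hz z hz' hb
        exact Or.inl ⟨⟨b, (mem_stab_res y T b).2 h2⟩, h3⟩
    have h2 := (Set.ncard_le_ncard h1 (Set.toFinite _)).trans (Set.ncard_union_le _ _)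
    have h3 : ((orbit B (y c)).ncard : ℝ) ≤
        (orbit (stabilizer B (res y T)) (y c)).ncard + m := by
      exact_mod_cast h2.trans (Nat.add_le_add_left hbad _)
    rw [div_le_iff₀ hε0] at hM
    have := hy' c hc
    nlinarith)
  obtain ⟨w, hw⟩ := hs (Ω := D.map (toPermHom B Y)) K (fun c w => g0 • (w.1 (y c)) = y c)
    (fun c => 1 / ((orbit B (y c)).ncard : ℝ)) (fun c _ => by positivity)
    (fun c hc => one_div_le_one_div_of_le (by norm_num) (by linarith [hy' c hc])) hL
    (fun T hT hJ => by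
      obtain ⟨a, b⟩ := hb T hT hJ
      have hc := count_coset D g0 y T (hD T hT hJ)
      rw [← Nat.card_eq_fintype_card, ← hc, Nat.cast_mul]
      simp only [one_div]
      rw [prod_inv_distrib]
      set P : ℝ := ∏ c ∈ T, ((orbit B (y c)).ncard : ℝ) with hP
      have hP0 : 0 < P := prod_pos fun c hc => by linarith [hy' c (hT hc)]
      set n : ℝ := ((Nat.card {w : D.map (toPermHom B Y) //
        ∀ c ∈ T, g0 • (w.1 (y c)) = y c} : ℕ) : ℝ) with hn
      have hn0 : 0 ≤ n := Nat.cast_nonneg _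
      set x : ℝ := ((stabilizer B (res y T)).index : ℝ) with hx
      constructor
      · have : P⁻¹ * x ≤ 1 := by rw [inv_mul_le_iff₀ hP0]; linarith
        nlinarith
      · have h1 := one_add_mul_le_pow (show (-2 : ℝ) ≤ -ε by linarith) T.card
        have h2 : (T.card : ℝ) ≤ J := by exact_mod_cast hJ
        have h3 : 1 / (1 + η) ≤ (1 - ε) ^ T.card := by
          have : 1 / (1 + η) = 1 - η / (1 + η) := by field_simp; ring
          rw [this, sub_eq_add_neg 1 ε]
          nlinarith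
        have h4 : 1 ≤ (1 + η) * P⁻¹ * x := by
          have h5 : 1 / (1 + η) * P ≤ x := le_trans (mul_le_mul_of_nonneg_right h3 hP0.le) a
          rw [div_mul_eq_mul_div, one_mul, div_le_iff₀ (by linarith)] at h5
          rw [mul_right_comm, ← div_eq_mul_inv, le_div_iff₀ hP0]
          linarith
        nlinarith)
  obtain ⟨w, d, hd, rfl⟩ := w
  exact ⟨d, hd, fun c hc h => hw c hc (by rw [mul_smul] at h; exact h)⟩

end Pool.Agent.P.MP_cc10d1_gt.S
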