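import Mathlib

/-! Bonferroni sieve for almost independent events. -/

namespace Pool.Agent.P.MP_cc10d1_gt.S

open Finset

set_option linter.unusedSectionVars false

variable {ι : Type*} [DecidableEq ι]

/-- Truncated inclusion-exclusion sum of a set function. -/
noncomputable def trunc (K : Finset ι) (J : ℕ) (f : Finset ι → ℝ) : ℝ :=
  ∑ T ∈ K.powerset with T.card ≤ J, (-1) ^ T.card * f T

theorem trunc_zero (K : Finset ι) (f : Finset ι → ℝ) : trunc K 0 f = f ∅ := by
  unfold trunc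
  have : K.powerset.filter (fun T => T.card ≤ 0) = {∅} := by
    ext T
    simp only [mem_filter, mem_powerset, nonpos_iff_eq_zero, card_eq_zero, mem_singleton]
    constructor
    · exact fun h => h.2
    · rintro rfl; simp
  rw [this]; simp

theorem trunc_empty (J : ℕ) (f : Finset ι → ℝ) : trunc (∅ : Finset ι) J f = f ∅ := by
  unfold trunc
  simp [filter_singleton]

theorem trunc_insert (K : Finset ι) (c : ι) (hc : c ∉ K) (J : ℕ) (p : ι → ℝ) :
    trunc (insert c K) (J + 1) (fun T => ∏ i ∈ T, p i) =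
      trunc K (J + 1) (fun T => ∏ i ∈ T, p i) - p c * trunc K J (fun T => ∏ i ∈ T, p i) := by
  unfold trunc
  simp only [sum_filter]
  rw [sum_powerset_insert hc, mul_sum, sub_eq_add_neg, ← sum_neg_distrib]
  congr 1
  refine sum_congr rfl fun T hT => ?_
  have hcT : c ∉ T := fun h => hc (mem_powerset.1 hT h)
  rw [card_insert_of_notMem hcT, prod_insert hcT]
  by_cases h : T.card ≤ J
  · rw [if_pos (Nat.succ_le_succ h), if_pos h, pow_succ]; ring
  · rw [if_neg (fun h' => h (Nat.le_of_succ_le_succ h')), if_neg h]; ring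

theorem bonferroni (p : ι → ℝ) (K : Finset ι) (h0 : ∀ c ∈ K, 0 ≤ p c) (h1 : ∀ c ∈ K, p c ≤ 1)
    (J : ℕ) : 0 ≤ (-1) ^ J * (trunc K J (fun T => ∏ i ∈ T, p i) - ∏ i ∈ K, (1 - p i)) := by
  induction K using Finset.induction_on generalizing J with
  | empty => simp [trunc_empty]
  | insert c K hc ih =>
    have h0' : ∀ d ∈ K, 0 ≤ p d := fun d hd => h0 d (mem_insert_of_mem hd)
    have h1' : ∀ d ∈ K, p d ≤ 1 := fun d hd => h1 d (mem_insert_of_mem hd)
    cases J with
    | zero =>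
      rw [trunc_zero]
      simp only [pow_zero, prod_empty, one_mul, sub_nonneg]
      exact prod_le_one (fun i hi => by linarith [h1 i hi]) (fun i hi => by linarith [h0 i hi])
    | succ J =>
      rw [trunc_insert K c hc, prod_insert hc]
      have a := ih h0' h1' (J + 1)
      have b := ih h0' h1' J
      have hp := h0 c (mem_insert_self c K)
      have := mul_nonneg hp b
      rw [pow_succ] at a ⊢
      nlinarith

theorem trunc_succ (K : Finset ι) (J : ℕ) (f : Finset ι → ℝ) :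
    trunc K (J + 1) f = trunc K J f + (-1) ^ (J + 1) * ∑ T ∈ K.powerset with T.card = J + 1, f T := by
  unfold trunc
  simp only [sum_filter, mul_sum, ← sum_add_distrib]
  refine sum_congr rfl fun T _ => ?_
  by_cases h : T.card = J + 1
  · rw [if_pos h.le, if_neg (by omega), if_pos h, h]; ring
  · by_cases h' : T.card ≤ J
    · rw [if_pos (by omega), if_pos h', if_neg h]; ring
    · rw [if_neg (by omega), if_neg h', if_neg h]; ring

theorem prod_one_add_le (p : ι → ℝ) (K : Finset ι) (h0 : ∀ c ∈ K, 0 ≤ p c) (x L : ℝ) (hx : 0 ≤ x)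
    (hL : ∑ c ∈ K, p c ≤ L) : ∏ c ∈ K, (1 + x * p c) ≤ Real.exp (x * L) := by
  calc ∏ c ∈ K, (1 + x * p c) ≤ ∏ c ∈ K, Real.exp (x * p c) :=
        prod_le_prod (fun i hi => by have := mul_nonneg hx (h0 i hi); linarith)
          (fun i _ => by linarith [Real.add_one_le_exp (x * p i)])
    _ = Real.exp (x * ∑ c ∈ K, p c) := by rw [← Real.exp_sum, mul_sum]
    _ ≤ _ := Real.exp_le_exp.2 (mul_le_mul_of_nonneg_left hL hx)

theorem level_le (p : ι → ℝ) (K : Finset ι) (h0 : ∀ c ∈ K, 0 ≤ p c) (L : ℝ)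
    (hL : ∑ c ∈ K, p c ≤ L) (m : ℕ) :
    2 ^ m * ∑ T ∈ K.powerset with T.card = m, ∏ i ∈ T, p i ≤ Real.exp (2 * L) := by
  refine le_trans ?_ (prod_one_add_le p K h0 2 L (by norm_num) hL)
  rw [prod_one_add, mul_sum]
  calc ∑ T ∈ K.powerset with T.card = m, 2 ^ m * ∏ i ∈ T, p i
      = ∑ T ∈ K.powerset with T.card = m, ∏ i ∈ T, (2 * p i) := by
        refine sum_congr rfl fun T hT => ?_
        rw [prod_mul_distrib, prod_const, (mem_filter.1 hT).2]
    _ ≤ _ := sum_le_sum_of_subset_of_nonneg (filter_subset _ _) fun T hT _ =>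
        prod_nonneg fun i hi => mul_nonneg (by norm_num) (h0 i (mem_powerset.1 hT hi))

theorem exp_le_prod (p : ι → ℝ) (K : Finset ι) (h0 : ∀ c ∈ K, 0 ≤ p c)
    (h1 : ∀ c ∈ K, p c ≤ 1 / 2) (L : ℝ) (hL : ∑ c ∈ K, p c ≤ L) :
    Real.exp (-(2 * L)) ≤ ∏ c ∈ K, (1 - p c) := by
  calc Real.exp (-(2 * L)) ≤ Real.exp (∑ c ∈ K, -(2 * p c)) := by
        apply Real.exp_le_exp.2
        rw [sum_neg_distrib, ← mul_sum]; linarith
    _ = ∏ c ∈ K, Real.exp (-(2 * p c)) := Real.exp_sum _ _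
    _ ≤ _ := by
        refine prod_le_prod (fun i _ => (Real.exp_pos _).le) fun i hi => ?_
        have a := Real.add_one_le_exp (2 * p i)
        have b := h0 i hi
        have c := h1 i hi
        rw [Real.exp_neg, inv_le_comm₀ (Real.exp_pos _) (by linarith), inv_le_iff_one_le_mul₀' (by linarith)]
        nlinarith

/-- Almost independent events of small probability and bounded total mass do not cover. -/
theorem sieve (L : ℝ) : ∃ (J : ℕ) (η : ℝ), 0 < η ∧
    ∀ {ι Ω : Type} [DecidableEq ι] [Fintype Ω] [Nonempty Ω] (K : Finset ι) (A : ι → Ω → Prop)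
      (p : ι → ℝ), (∀ c ∈ K, 0 ≤ p c) → (∀ c ∈ K, p c ≤ 1 / 2) → ∑ c ∈ K, p c ≤ L →
      (∀ T ⊆ K, T.card ≤ J →
        (∏ c ∈ T, p c) * Fintype.card Ω ≤ Nat.card {w : Ω // ∀ c ∈ T, A c w} ∧
        (Nat.card {w : Ω // ∀ c ∈ T, A c w} : ℝ) ≤ (1 + η) * (∏ c ∈ T, p c) * Fintype.card Ω) →
      ∃ w : Ω, ∀ c ∈ K, ¬ A c w := by
  have he := Real.exp_pos (-(2 * L))
  obtain ⟨m, hm⟩ := pow_unbounded_of_one_lt (2 * Real.exp (2 * L) / Real.exp (-(2 * L)))
    (show (1 : ℝ) < 2 by norm_num)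
  refine ⟨2 * m + 1, Real.exp (-(2 * L)) / (4 * Real.exp (1 * L)), by positivity, ?_⟩
  intro ι Ω _ _ _ K A p h0 h1 hL hT
  classical
  by_contra hcon
  push Not at hcon
  set η := Real.exp (-(2 * L)) / (4 * Real.exp (1 * L)) with hη
  have hη0 : 0 < η := by positivity
  set N : ℝ := (Fintype.card Ω : ℝ) with hN
  have hN0 : 0 < N := by rw [hN]; exact_mod_cast Fintype.card_pos
  let q : Ω → ι → ℝ := fun w c => if A c w then 1 else 0
  have hq : ∀ w, trunc K (2 * m + 1) (fun T => ∏ i ∈ T, q w i) ≤ 0 := by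
    intro w
    have := bonferroni (q w) K (fun c _ => by simp only [q]; split_ifs <;> norm_num)
      (fun c _ => by simp only [q]; split_ifs <;> norm_num) (2 * m + 1)
    obtain ⟨c, hc, hA⟩ := hcon w
    rw [prod_eq_zero hc (by simp [q, hA]), pow_succ, pow_mul] at this
    norm_num at this
    exact this
  have hcount : ∀ T : Finset ι, ∑ w, ∏ i ∈ T, q w i = Nat.card {w : Ω // ∀ c ∈ T, A c w} := by
    intro T
    rw [Nat.card_eq_fintype_card, Fintype.card_subtype, card_filter, Nat.cast_sum]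
    refine sum_congr rfl fun w _ => ?_
    simp only [q]
    rw [prod_ite_zero]
    split_ifs <;> simp
  have hsum : trunc K (2 * m + 1) (fun T => Nat.card {w : Ω // ∀ c ∈ T, A c w}) ≤ 0 := by
    have : trunc K (2 * m + 1) (fun T => Nat.card {w : Ω // ∀ c ∈ T, A c w}) =
        ∑ w, trunc K (2 * m + 1) (fun T => ∏ i ∈ T, q w i) := by
      unfold trunc
      rw [sum_comm]
      refine sum_congr rfl fun T _ => ?_
      rw [← mul_sum, hcount]
    rw [this]
    exact sum_nonpos fun w _ => hq w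
  have hlow : N * trunc K (2 * m + 1) (fun T => ∏ i ∈ T, p i) -
      N * η * ∑ T ∈ K.powerset, ∏ i ∈ T, p i ≤
      trunc K (2 * m + 1) (fun T => Nat.card {w : Ω // ∀ c ∈ T, A c w}) := by
    unfold trunc
    have hsub : ∑ T ∈ K.powerset with T.card ≤ 2 * m + 1, ∏ i ∈ T, p i ≤
        ∑ T ∈ K.powerset, ∏ i ∈ T, p i :=
      sum_le_sum_of_subset_of_nonneg (filter_subset _ _) fun T hT' _ =>
        prod_nonneg fun i hi => h0 i (mem_powerset.1 hT' hi)
    have := mul_le_mul_of_nonneg_left hsub (mul_pos hN0 hη0).le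
    refine le_trans (sub_le_sub_left this _) ?_
    rw [mul_sum, mul_sum, ← sum_sub_distrib]
    refine sum_le_sum fun T hT' => ?_
    obtain ⟨ha, hb⟩ := mem_filter.1 hT'
    obtain ⟨h2, h3⟩ := hT T (mem_powerset.1 ha) hb
    have hp : 0 ≤ ∏ i ∈ T, p i := prod_nonneg fun i hi => h0 i (mem_powerset.1 ha hi)
    have := mul_nonneg (mul_pos hN0 hη0).le hp
    rcases neg_one_pow_eq_or ℝ T.card with h | h <;> rw [h] <;> nlinarith
  have hb := bonferroni p K h0 (fun c hc => by linarith [h1 c hc]) (2 * m + 1 + 1)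
  rw [trunc_succ, show 2 * m + 1 + 1 = 2 * (m + 1) by ring, pow_mul] at hb
  norm_num at hb
  have hl := level_le p K h0 L hL (2 * (m + 1))
  have hp := exp_le_prod p K h0 h1 L hL
  have ha := prod_one_add_le p K h0 1 L (by norm_num) hL
  simp only [one_mul] at ha
  rw [prod_one_add] at ha
  set S := ∑ T ∈ K.powerset with T.card = 2 * (m + 1), ∏ i ∈ T, p i with hS
  have hS0 : 0 ≤ S := sum_nonneg fun T hT' =>
    prod_nonneg fun i hi => h0 i (mem_powerset.1 (mem_filter.1 hT').1 hi)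
  have h2m : (2 : ℝ) ^ m ≤ 2 ^ (2 * (m + 1)) := pow_le_pow_right₀ (by norm_num) (by omega)
  have hS1 : S ≤ Real.exp (-(2 * L)) / 2 := by
    rw [div_lt_iff₀ he] at hm
    have h3 : 2 ^ m * S ≤ Real.exp (2 * L) := le_trans (mul_le_mul_of_nonneg_right h2m hS0) hl
    have h4 : (0 : ℝ) < 2 ^ m := by positivity
    by_contra hh
    push Not at hh
    nlinarith
  have hη1 : η * ∑ T ∈ K.powerset, ∏ i ∈ T, p i ≤ Real.exp (-(2 * L)) / 4 := by
    have : η * Real.exp L = Real.exp (-(2 * L)) / 4 := by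
      rw [hη, one_mul]; field_simp
    rw [← this]
    exact mul_le_mul_of_nonneg_left ha hη0.le
  have h5 : 0 < trunc K (2 * m + 1) (fun T => ∏ i ∈ T, p i) -
      η * ∑ T ∈ K.powerset, ∏ i ∈ T, p i := by linarith
  have := mul_pos hN0 h5
  nlinarith

end Pool.Agent.P.MP_cc10d1_gt.S
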